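import Mathlib

set_option autoImplicit false

namespace Pool.Agent.Results.MP_cb1e0a_co.Infinite

open Finset
open scoped PiCountable

/-- any two points are joined by a constant-speed geodesic -/
def Geodesic (X : Type) [MetricSpace X] : Prop :=
  ∀ x y : X, ∃ γ : ℝ → X, γ 0 = x ∧ γ 1 = y ∧
    ∀ s ∈ Set.Icc (0 : ℝ) 1, ∀ t ∈ Set.Icc (0 : ℝ) 1, dist (γ s) (γ t) = |s - t| * dist x y

/-- the robber has a strategy that wins against every play of `k` cops -/
def RobberWins (X : Type) [MetricSpace X] (k : ℕ) : Prop :=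
  ∃ (r₀ : X) (c₀ : Fin k → X) (τ : ℕ → ℝ), (∀ n, 0 < τ n) ∧ ¬Summable τ ∧
    ∃ σ : ℕ → X → (Fin k → X) → X, (∀ n r c, dist r (σ n r c) ≤ τ (n + 1)) ∧
      ∀ (r : ℕ → X) (c : ℕ → Fin k → X), r 0 = r₀ → c 0 = c₀ →
        (∀ n, r (n + 1) = σ n (r n) (c n)) → (∀ n i, dist (c n i) (c (n + 1) i) ≤ τ (n + 1)) →
        ∃ δ > 0, ∀ n i, δ ≤ dist (r n) (c n i)

abbrev T := ∀ n : ℕ, AddCircle ((2⁻¹ : ℝ) ^ n)

noncomputable abbrev inst : MetricSpace T := PiCountable.metricSpace

attribute [local instance] inst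

instance (n : ℕ) : Fact (0 < (2⁻¹ : ℝ) ^ n) := ⟨by positivity⟩

theorem min_eq (x y : T) (n : ℕ) :
    min (2⁻¹ ^ Encodable.encode n) (dist (x n) (y n)) = ‖x n - y n‖ := by
  have h : (0 : ℝ) < 2⁻¹ ^ n := by positivity
  have := AddCircle.norm_le_half_period _ (x := x n - y n) h.ne'
  rw [abs_of_pos h] at this
  rw [dist_eq_norm, min_eq_right (by simp only [Encodable.encode_nat]; linarith)]

theorem dist_eq (x y : T) : dist x y = ∑' n, ‖x n - y n‖ :=
  (PiCountable.dist_eq_tsum x y).trans (tsum_congr (min_eq x y))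

theorem lift {p : ℝ} (u : AddCircle p) : ∃ v : ℝ, v = u ∧ |v| = ‖u‖ := by
  induction u using QuotientAddGroup.induction_on with
  | H x =>
    refine ⟨x - round (p⁻¹ * x) * p, ?_, (AddCircle.norm_eq p).symm⟩
    rw [← zsmul_eq_mul, AddCircle.coe_sub, AddCircle.coe_zsmul, AddCircle.coe_period]
    simp

theorem norm_coe {n : ℕ} {v : ℝ} (h : |v| ≤ 2⁻¹ ^ n / 2) :
    ‖(v : AddCircle ((2⁻¹ : ℝ) ^ n))‖ = |v| :=
  (AddCircle.norm_coe_eq_abs_iff _ (by positivity)).mpr (h.trans_eq (by rw [abs_of_pos (by positivity)]))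

theorem geo : Geodesic T := fun x y => by
  choose v h1 h2 using fun n => lift (x n - y n)
  refine ⟨fun t n => x n - ↑(t * v n), by simp, funext fun n => by simp [h1], fun s hs t ht => ?_⟩
  rw [dist_eq, dist_eq, ← tsum_mul_left]
  refine tsum_congr fun n => ?_
  have := AddCircle.norm_le_half_period _ (x := x n - y n) (by positivity)
  have k : |t - s| ≤ 1 := abs_le.mpr ⟨by linarith [hs.2, ht.1], by linarith [hs.1, ht.2]⟩
  rw [sub_sub_sub_cancel_left, ← AddCircle.coe_sub, ← sub_mul, norm_coe, abs_mul, h2, abs_sub_comm]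
  rw [abs_mul, h2]
  rw [abs_of_pos (by positivity)] at this
  nlinarith [norm_nonneg (x n - y n)]

theorem wins (k : ℕ) : RobberWins T k := by
  classical
  let ι : (Fin k → Fin 3) → ℕ := fun j => finFunctionFinEquiv j
  have hι : ι.Injective := Fin.val_injective.comp finFunctionFinEquiv.injective
  obtain ⟨τ, h0, hτ⟩ : ∃ τ : ℝ, 0 < τ ∧ ∀ j, 12 * τ ≤ 2⁻¹ ^ ι j / 2 :=
    ⟨2⁻¹ ^ 3 ^ k / 24, by positivity, fun j => by
      linarith [pow_le_pow_of_le_one (a := (2⁻¹ : ℝ)) (by norm_num) (by norm_num)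
        (finFunctionFinEquiv j).2.le]⟩
  have nc : ∀ j (v : ℝ), |v| ≤ 12 * τ → ‖(v : AddCircle ((2⁻¹ : ℝ) ^ ι j))‖ = |v| :=
    fun j v h => norm_coe (h.trans (hτ j))
  let D : T → ℝ := fun u => ∑ j, ‖u (ι j)‖
  let W : Fin k → T → Fin 3 → ℝ := fun i u a =>
    ∑ j, if j i = a then ‖u (ι j) + ↑(6 * τ)‖ - 6 * τ else ‖u (ι j)‖
  have hD : ∀ x y, D (x - y) ≤ dist x y := fun x y => by
    have := (PiCountable.dist_summable x y).congr (min_eq x y)
    rw [dist_eq]
    refine le_trans ?_ (this.sum_le_tsum (univ.image ι) fun _ _ => norm_nonneg _)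
    rw [sum_image hι.injOn]
    rfl
  have n6 : ∀ j, ‖((6 * τ : ℝ) : AddCircle ((2⁻¹ : ℝ) ^ ι j))‖ = 6 * τ := fun j => by
    rw [nc j _ (by rw [abs_of_pos] <;> linarith), abs_of_pos (by linarith)]
  have lip : ∀ i a u v, W i (u + v) a ≤ W i u a + D v := fun i a u v => by
    rw [← sum_add_distrib]
    refine sum_le_sum fun j _ => ?_
    have := norm_add_le (u (ι j) + ↑(6 * τ)) (v (ι j))
    have := norm_add_le (u (ι j)) (v (ι j))
    rw [Pi.add_apply, add_right_comm]
    split_ifs <;> linarith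
  have w0 : ∀ i a, W i 0 a = 0 := fun i a => by simp [W, n6]
  have big : ∀ i u, 3 * τ ≤ D u → ∃ a, τ ≤ W i u a := fun i u h => by
    have : D u ≤ ∑ a, W i u a := by
      rw [sum_comm]
      refine sum_le_sum fun j _ => ?_
      have := norm_sub_le (u (ι j) + ↑(6 * τ)) (u (ι j))
      rw [add_sub_cancel_left, n6] at this
      generalize j i = b
      fin_cases b <;> simp [Fin.sum_univ_three] <;> linarith
    by_contra k
    push Not at k
    rw [Fin.sum_univ_three] at this
    linarith [k 0, k 1, k 2]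
  have up : ∀ i u j, D u ≤ 5 * τ → W i (u + Pi.single (ι j) ↑τ) (j i) = W i u (j i) + τ := by
    intro i u j h
    simp only [W, ← add_sum_erase _ _ (mem_univ j), if_true]
    rw [sum_congr rfl fun j' hj => by
      rw [Pi.add_apply, Pi.single_eq_of_ne (hι.ne (ne_of_mem_erase hj)), add_zero]]
    obtain ⟨v, v1, v2⟩ := lift (u (ι j))
    have := abs_le.mp (v2.trans_le ((single_le_sum (f := fun j => ‖u (ι j)‖)
      (fun _ _ => norm_nonneg _) (mem_univ j)).trans h))
    rw [Pi.add_apply, Pi.single_eq_same, ← v1, ← AddCircle.coe_add, ← AddCircle.coe_add,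
      ← AddCircle.coe_add, nc, nc, abs_of_pos, abs_of_pos] <;>
    try rw [abs_of_pos]
    all_goals linarith
  choose m hm using fun i u => Finite.exists_max (W i u)
  let e : T → (Fin k → T) → T := fun r c => Pi.single (ι fun i => m i (r - c i)) ↑τ
  have he : ∀ r c, dist r (r + e r c) = τ := fun r c => by
    rw [dist_eq, tsum_eq_single (ι fun i => m i (r - c i)) fun n h => by simp [e, h]]
    simp [e, nc _ τ (by rw [abs_of_pos] <;> linarith), abs_of_pos h0]
  refine ⟨0, fun _ _ => ↑(6 * τ), fun _ => τ, fun _ => h0, by simpa [summable_const_iff] using h0.ne',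
    fun _ r c => r + e r c, fun _ r c => (he r c).le, fun r c h1 h2 h3 h4 => ⟨τ, h0, ?_⟩⟩
  beta_reduce at h3 h4
  have inv : ∀ n i, ∃ a, τ ≤ W i (r n - c n i) a := fun n i => by
    induction n with
    | zero =>
      refine big _ _ (le_trans ?_ (single_le_sum (fun _ _ => norm_nonneg _) (mem_univ 0)))
      simp only [h1, h2, zero_sub, Pi.neg_apply, norm_neg, n6]
      linarith
    | succ n ih =>
      obtain ⟨a, ha⟩ := ih
      have k1 := (hD _ _).trans (dist_comm (c n i) _ ▸ h4 n i)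
      by_cases h : D (r n - c n i) ≤ 5 * τ
      · refine ⟨m i (r n - c n i), ?_⟩
        have k2 := lip i (m i (r n - c n i)) (r (n + 1) - c (n + 1) i) (c (n + 1) i - c n i)
        have k3 := up i _ (fun i => m i (r n - c n i)) h
        rw [sub_add_sub_cancel, h3, add_sub_right_comm, k3] at k2
        rw [h3]
        linarith [hm i (r n - c n i) a]
      · refine big _ _ ?_
        have k2 := (hD _ _).trans (he (r n) (c n)).le
        have k3 : D (r n - c n i) ≤ D (r (n + 1) - c (n + 1) i) + D (c (n + 1) i - c n i) +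
            D (r n - r (n + 1)) := by
          simp only [D, ← sum_add_distrib]
          refine sum_le_sum fun j _ => le_of_eq_of_le ?_ norm_add₃_le
          simp
        rw [← h3] at k2
        linarith
  intro n i
  obtain ⟨a, ha⟩ := inv n i
  have := lip i a 0 (r n - c n i)
  rw [zero_add, w0] at this
  linarith [hD (r n) (c n i)]

theorem result : ∃ (X : Type) (_ : MetricSpace X), CompactSpace X ∧ Geodesic X ∧
    (∀ x y : X, ∃ f : X ≃ᵢ X, f x = y) ∧ ∀ k, RobberWins X k :=
  ⟨T, inst, Pi.compactSpace, geo, fun x y => ⟨⟨Equiv.addRight (y - x), .of_dist_eq fun a b => by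
    simp [dist_eq]⟩, add_sub_cancel x y⟩, wins⟩

end Pool.Agent.Results.MP_cb1e0a_co.Infinite
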